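import Pool.Agent.Helper7.HM.LemmaB
import Pool.Agent.Helper8.HM.Reals

/-!
# The dichotomy along the iteration (module HM-C): base case, limits, induction
-/

set_option autoImplicit false
set_option linter.unusedSectionVars false

namespace Pool.Agent.Helper33.HM

section LC

variable {B : Type 1} [CompleteBooleanAlgebra B]

theorem h23_ne_bot_of_not_le {a b : B} (h : ¬ a ≤ b) : a ⊓ bᶜ ≠ ⊥ := fun h2 => h (by
  rwa [← disjoint_iff, disjoint_compl_right_iff] at h2)

theorem h23_isPr_bot : IsPr (fun _ => (⊥ : B)) := fun _ => by simp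

theorem h23_isPr_top : IsPr (fun _ => (⊤ : B)) := fun _ => by simp

theorem h23_type1_bot {S : Set B} (hS : IsSub S) (C : List Bool → B) : Type1 S C ⊥ :=
  ⟨fun _ => ⊥, fun _ => hS.bot_mem, h23_isPr_bot, nullV_bot, bot_le⟩

theorem good_self {S : Set B} (hS : IsSub S) : Good S S := by
  intro C hC hpr b hb hb0
  have hnS : nullV C ∈ S := nullV_mem hS hC
  by_cases hm : b ⊓ nullV C = ⊥
  · -- `b` forces that `C` has positive measure
    have hbe : b ≤ (nullV C)ᶜ := le_compl_iff_disjoint_right.2 (disjoint_iff.2 hm)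
    refine ⟨b, hb, hb0, le_rfl, Or.inr ?_⟩
    set e : B := (nullV C)ᶜ with he
    have heS : e ∈ S := hS.compl_mem _ hnS
    refine ⟨fun _ σ => (e ⊓ C σ) ⊔ (eᶜ ⊓ ⊤), ?_, ?_, ?_, ?_⟩
    · intro n σ
      exact hS.sup_mem (hS.inf_mem heS (hC σ)) (hS.inf_mem (hS.compl_mem _ heS) hS.top_mem)
    · intro n σ
      have h := hpr σ
      simp only [inf_top_eq]
      rw [h, inf_sup_left]
      apply le_antisymm
      · refine sup_le (sup_le ?_ ?_) ?_
        · exact le_sup_left.trans le_sup_left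
        · exact le_sup_left.trans le_sup_right
        · exact le_sup_right.trans le_sup_left
      · refine sup_le (sup_le ?_ ?_) (sup_le ?_ ?_)
        · exact le_sup_left.trans le_sup_left
        · exact le_sup_right
        · exact le_sup_right.trans le_sup_left
        · exact le_sup_right
    · intro n
      have h := nullV_ite e C (fun _ => (⊤ : B))
      rw [nullV_top] at h
      rw [h, he, compl_inf_eq_bot, inf_bot_eq, sup_bot_eq]
    · intro F hF hFpr
      refine le_iSup_of_le 0 (le_subV_iff.2 fun σ => ?_)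
      have h1 : b ⊓ subV C F ⊓ C σ ≤ F σ := le_subV_iff.1 inf_le_right σ
      rw [inf_top_eq, inf_sup_left]
      refine sup_le ?_ ?_
      · refine le_trans (le_inf inf_le_left ?_) h1
        exact inf_le_right.trans inf_le_right
      · have h2 : b ⊓ subV C F ⊓ eᶜ ≤ ⊥ := by
          calc b ⊓ subV C F ⊓ eᶜ ≤ e ⊓ eᶜ := inf_le_inf_right _ (inf_le_left.trans hbe)
            _ = ⊥ := inf_compl_eq_bot
        exact h2.trans bot_le
  · refine ⟨b ⊓ nullV C, hS.inf_mem hb hnS, hm, inf_le_left, Or.inl ?_⟩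
    set e : B := nullV C with he
    refine ⟨fun σ => (e ⊓ C σ) ⊔ (eᶜ ⊓ ⊥), ?_, ?_, ?_, ?_⟩
    · intro σ
      exact hS.sup_mem (hS.inf_mem hnS (hC σ)) (hS.inf_mem (hS.compl_mem _ hnS) hS.bot_mem)
    · intro σ
      have h := hpr σ
      simp only [inf_bot_eq, sup_bot_eq]
      rw [h, inf_sup_left]
    · have h := nullV_ite e C (fun _ => (⊥ : B))
      rw [nullV_bot] at h
      rw [h, inf_top_eq, ← he, inf_idem, sup_compl_eq_top]
    · refine le_subV_iff.2 fun σ => ?_
      refine le_sup_of_le_left (le_inf ?_ inf_le_right)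
      exact inf_le_left.trans inf_le_right

/-- The limit step. -/
theorem h23_good_limit (I : HIter B) {α β : Ordinal.{0}} (hβ : Order.IsSuccLimit β)
    (hαβ : α < β) (ih : ∀ γ < β, α ≤ γ → Good (I.S α) (I.S γ)) : Good (I.S α) (I.S β) := by
  classical
  intro C hC hpr b hb hb0
  by_cases hcase : ∃ γ < β, ∀ σ, C σ ∈ I.S γ
  · -- `C` appears at an earlier stage
    obtain ⟨γ, hγ, hCγ⟩ := hcase
    obtain ⟨γ', hγ', c1, hc1, hc10, hc1b⟩ := I.lim β hβ b hb hb0
    have hδ : max α (max γ γ') < β := max_lt hαβ (max_lt hγ hγ')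
    obtain ⟨c, hc, hc0, hcc1, ht⟩ := ih (max α (max γ γ')) hδ (le_max_left _ _) C
      (fun σ => I.mono _ _ ((le_max_left _ _).trans (le_max_right _ _)) (hCγ σ)) hpr c1
      (I.mono _ _ ((le_max_right _ _).trans (le_max_right _ _)) hc1) hc10
    exact ⟨c, I.mono _ _ hδ.le hc, hc0, hcc1.trans hc1b, ht⟩
  · -- `β` has countable cofinality
    have hpart : ∀ σ, ∃ a : ℕ → B, (∀ n, a n ∈ I.S β) ∧ (∀ n, ∃ γ < β, a n ∈ I.S γ) ∧
        (∀ n, a n ≤ C σ) ∧ (∀ m n, m ≠ n → a m ⊓ a n = ⊥) ∧ ⨆ n, a n = C σ := by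
      intro σ
      refine exists_partition I.ccc (I.sub β) (fun c => ∃ γ < β, c ∈ I.S γ) ?_ ?_ (hC σ)
      · intro x hx hx0
        obtain ⟨γ, hγ, c, hc, hc0, hcx⟩ := I.lim β hβ x hx hx0
        exact ⟨c, I.mono _ _ hγ.le hc, hc0, hcx, γ, hγ, hc⟩
      · exact ⟨α, hαβ, (I.sub α).bot_mem⟩
    choose a _ haγ _ _ hsup using hpart
    choose γ hγβ hγ using haγ
    have hcof : ∀ ζ < β, ∃ σ n, ζ ≤ γ σ n := by
      intro ζ hζ
      by_contra hcon
      push Not at hcon
      refine hcase ⟨ζ, hζ, fun σ => ?_⟩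
      rw [← hsup σ]
      exact (I.sub ζ).iSup_mem fun n => I.mono _ _ (hcon σ n).le (hγ σ n)
    let δ : ℕ → Ordinal.{0} := fun k =>
      match Encodable.decode (α := List Bool × ℕ) k with
      | some x => max α (γ x.1 x.2)
      | none => α
    have hδβ : ∀ k, δ k < β := by
      intro k
      simp only [δ]
      split
      · exact max_lt hαβ (hγβ _ _)
      · exact hαβ
    have hαδ : ∀ k, α ≤ δ k := by
      intro k
      simp only [δ]
      split
      · exact le_max_left _ _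
      · exact le_rfl
    have hδcof : ∀ ζ < β, ∃ k, ζ ≤ δ k := by
      intro ζ hζ
      obtain ⟨σ, n, h⟩ := hcof ζ hζ
      refine ⟨Encodable.encode (σ, n), ?_⟩
      simp only [δ, Encodable.encodek]
      exact h.trans (le_max_right _ _)
    -- the projections of `C`
    let P : ℕ → List Bool → B := fun k σ => proj (I.S (δ k)) (C σ)
    have hPmem : ∀ k σ, P k σ ∈ I.S (δ k) := fun k σ => (I.sub (δ k)).proj_mem _
    have hPpr : ∀ k, IsPr (P k) := fun k σ => by
      show proj (I.S (δ k)) (C σ) = _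
      rw [hpr σ, (I.sub (δ k)).proj_sup]
    have hCP : ∀ k σ, C σ ≤ P k σ := fun k σ => le_proj _ _
    have hpart2 : ∀ k, ∃ p : ℕ → B, (∀ m, p m ∈ I.S (δ k)) ∧
        (∀ m, Type1 (I.S α) (P k) (p m) ∨ Type2 (I.S α) (P k) (p m)) ∧
        (∀ m, p m ≤ ⊤) ∧ (∀ m n, m ≠ n → p m ⊓ p n = ⊥) ∧ ⨆ m, p m = ⊤ := by
      intro k
      refine exists_partition I.ccc (I.sub (δ k))
        (fun c => Type1 (I.S α) (P k) c ∨ Type2 (I.S α) (P k) c) ?_
        (Or.inl (h23_type1_bot (I.sub α) _)) (I.sub (δ k)).top_mem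
      intro x hx hx0
      exact ih (δ k) (hδβ k) (hαδ k) (P k) (hPmem k) (hPpr k) x hx hx0
    choose p hpmem hptype _ _ hpsup using hpart2
    -- the sequences of the pieces of type 2
    have hK : ∀ k m, ∃ K : ℕ → List Bool → B, (∀ n σ, K n σ ∈ I.S α) ∧ (∀ n, IsPr (K n)) ∧
        (∀ n, nullV (K n) = ⊥) ∧ (Type2 (I.S α) (P k) (p k m) →
          ∀ F : List Bool → B, (∀ σ, F σ ∈ I.S α) → IsPr F →
            p k m ⊓ subV (P k) F ≤ ⨆ n, subV (K n) F) := by
      intro k m
      by_cases ht : Type2 (I.S α) (P k) (p k m)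
      · obtain ⟨K, h1, h2, h3, h4⟩ := ht
        exact ⟨K, h1, h2, h3, fun _ => h4⟩
      · exact ⟨fun _ _ => ⊤, fun _ _ => (I.sub α).top_mem, fun _ => h23_isPr_top,
          fun _ => nullV_top, fun h => absurd h ht⟩
    choose K hK1 hK2 hK3 hK4 using hK
    let Ks : ℕ → List Bool → B := fun j =>
      K j.unpair.1 j.unpair.2.unpair.1 j.unpair.2.unpair.2
    have hKs : ∀ k m n, Ks (Nat.pair k (Nat.pair m n)) = K k m n := by
      intro k m n
      simp only [Ks, Nat.unpair_pair]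
    by_cases hall : ∀ F : List Bool → B, (∀ σ, F σ ∈ I.S α) → IsPr F →
        b ⊓ subV C F ≤ ⨆ j, subV (Ks j) F
    · exact ⟨b, hb, hb0, le_rfl, Or.inr ⟨Ks, fun n σ => hK1 _ _ _ σ, fun n => hK2 _ _ _,
        fun n => hK3 _ _ _, hall⟩⟩
    · push Not at hall
      obtain ⟨F, hF, hFpr, hnle⟩ := hall
      have hc0 := h23_ne_bot_of_not_le hnle
      have hmonoα : ∀ x ∈ I.S α, x ∈ I.S β := fun x hx => I.mono _ _ hαβ.le hx
      have hc0mem : b ⊓ subV C F ⊓ (⨆ j, subV (Ks j) F)ᶜ ∈ I.S β := by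
        refine (I.sub β).inf_mem ((I.sub β).inf_mem hb ?_) ((I.sub β).compl_mem _
          ((I.sub β).iSup_mem fun j => ?_))
        · exact subV_mem (I.sub β) hC fun σ => hmonoα _ (hF σ)
        · exact subV_mem (I.sub β) (fun σ => hmonoα _ (hK1 _ _ _ σ)) fun σ => hmonoα _ (hF σ)
      obtain ⟨ζ, hζ, c1, hc1, hc10, hc1le⟩ := I.lim β hβ _ hc0mem hc0
      obtain ⟨k, hk⟩ := hδcof ζ hζ
      have hc1k : c1 ∈ I.S (δ k) := I.mono _ _ hk hc1
      have hc1b : c1 ≤ b := hc1le.trans (inf_le_left.trans inf_le_left)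
      have hc1C : c1 ≤ subV C F := hc1le.trans (inf_le_left.trans inf_le_right)
      have hc1K : c1 ≤ (⨆ j, subV (Ks j) F)ᶜ := hc1le.trans inf_le_right
      have hc1P : c1 ≤ subV (P k) F := by
        refine le_subV_iff.2 fun σ => ?_
        rw [← (I.sub (δ k)).proj_inf hc1k]
        exact (I.sub (δ k)).proj_le (I.mono _ _ (hαδ k) (hF σ)) (le_subV_iff.1 hc1C σ)
      obtain ⟨m, hm⟩ := exists_inf_ne_bot hc10 (le_top.trans (hpsup k).ge)
      have hcmem : c1 ⊓ p k m ∈ I.S (δ k) := (I.sub (δ k)).inf_mem hc1k (hpmem k m)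
      rcases hptype k m with ht | ht
      · obtain ⟨Z, hZ1, hZ2, hZ3, hZ4⟩ := ht
        refine ⟨c1 ⊓ p k m, I.mono _ _ (hδβ k).le hcmem, hm, inf_le_left.trans hc1b,
          Or.inl ⟨Z, hZ1, hZ2, hZ3, le_subV_iff.2 fun σ => ?_⟩⟩
        exact (inf_le_inf inf_le_right (hCP k σ)).trans (le_subV_iff.1 hZ4 σ)
      · exfalso
        apply hm
        have h1 : c1 ⊓ p k m ≤ ⨆ j, subV (Ks j) F := by
          calc c1 ⊓ p k m ≤ p k m ⊓ subV (P k) F :=
                le_inf inf_le_right (inf_le_left.trans hc1P)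
            _ ≤ ⨆ n, subV (K k m n) F := hK4 k m ht F hF hFpr
            _ ≤ ⨆ j, subV (Ks j) F := iSup_le fun n => by
                rw [← hKs k m n]
                exact le_iSup (fun j => subV (Ks j) F) _
        have h2 : c1 ⊓ p k m ≤ (⨆ j, subV (Ks j) F)ᶜ := inf_le_left.trans hc1K
        exact le_bot_iff.1 ((le_inf h1 h2).trans inf_compl_eq_bot.le)

theorem good_all (I : HIter B) {α β : Ordinal.{0}} (h : α ≤ β) : Good (I.S α) (I.S β) := by
  induction β using WellFoundedLT.induction with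
  | ind β ih =>
    rcases h.eq_or_lt with rfl | hlt
    · exact good_self (I.sub α)
    · rcases Ordinal.zero_or_succ_or_isSuccLimit β with h0 | ⟨γ, hγ⟩ | hlim
      · exact absurd hlt (by rw [h0]; exact not_lt_bot)
      · subst hγ
        have hαγ : α ≤ γ := Order.lt_succ_iff.1 hlt
        exact lemmaB I.ccc (I.sub α) (I.sub γ) (I.sub (Order.succ γ)) (I.mono _ _ hαγ)
          (I.mono _ _ (Order.le_succ γ)) (I.d_fn γ) (I.pos γ) (I.dense γ)
          (ih γ (Order.lt_succ γ) hαγ)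
      · exact h23_good_limit I hlim hlt fun γ hγ hαγ => ih γ hγ hαγ

theorem good_univ (I : HIter B) (α : Ordinal.{0}) : Good (I.S α) Set.univ := by
  intro C _ hpr b _ hb0
  obtain ⟨γ, hγ⟩ := exists_stage I (fun k =>
    match Encodable.decode (α := List Bool) k with
    | some σ => C σ
    | none => ⊥)
  have hCγ : ∀ σ, C σ ∈ I.S γ := fun σ => by simpa using hγ (Encodable.encode σ)
  obtain ⟨γ', c1, hc1, hc10, hc1b⟩ := I.top b hb0
  obtain ⟨c, _, hc0, hcc1, ht⟩ := good_all I (le_max_left α (max γ γ')) C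
    (fun σ => I.mono _ _ ((le_max_left _ _).trans (le_max_right _ _)) (hCγ σ)) hpr c1
    (I.mono _ _ ((le_max_right _ _).trans (le_max_right _ _)) hc1) hc10
  exact ⟨c, trivial, hc0, hcc1.trans hc1b, ht⟩

end LC

end Pool.Agent.Helper33.HM
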